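import Pool.Agent.W533.LP.Stm
import Pool.Agent.W533.LP.Stm3

/-!
# Burke property of stationary geometric last passage percolation
-/

namespace Pool.Agent.W634.LP

open MeasureTheory ProbabilityTheory Pool.Agent.W533.LP

/-- Restriction of an independent geometric family along an injection. -/
theorem GeoFam.precomp {Ω ι ι' : Type} [MeasurableSpace Ω] {μ : Measure Ω} {p : ι → ℝ}
    {X : ι → Ω → ℕ} (h : GeoFam μ p X) (g : ι' → ι) (hg : Function.Injective g) :
    GeoFam μ (fun i => p (g i)) (fun i => X (g i)) where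
  prob := h.prob
  pos i := h.pos (g i)
  meas i := h.meas (g i)
  indep := h.indep.precomp hg
  law i k := h.law (g i) k

/-- Congruence. -/
theorem GeoFam.congr {Ω ι : Type} [MeasurableSpace Ω] {μ : Measure Ω} {p p' : ι → ℝ}
    {X X' : ι → Ω → ℕ} (h : GeoFam μ p X) (hp : ∀ i, p i = p' i) (hX : ∀ i ω, X i ω = X' i ω) :
    GeoFam μ p' X' := by
  have h1 : p = p' := funext hp
  have h2 : X = X' := funext fun i => funext (hX i)
  rw [← h1, ← h2]; exact h

/-- Transfer by the joint law (finite index set). -/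
theorem GeoFam.of_map {Ω ι : Type} [Fintype ι] [MeasurableSpace Ω] {μ : Measure Ω} {p : ι → ℝ}
    {X Y : ι → Ω → ℕ} (h : GeoFam μ p X) (hY : ∀ i, Measurable (Y i))
    (hm : Measure.map (fun ω i => Y i ω) μ = Measure.map (fun ω i => X i ω) μ) :
    GeoFam μ p Y := by
  have := h.prob
  have hXm : Measurable (fun ω i => X i ω) := measurable_pi_lambda _ h.meas
  have hYm : Measurable (fun ω i => Y i ω) := measurable_pi_lambda _ hY
  have hmarg : ∀ i, Measure.map (Y i) μ = Measure.map (X i) μ := by
    intro i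
    have e1 : Y i = (fun v : ι → ℕ => v i) ∘ (fun ω i => Y i ω) := rfl
    have e2 : X i = (fun v : ι → ℕ => v i) ∘ (fun ω i => X i ω) := rfl
    rw [e1, e2, ← Measure.map_map (measurable_pi_apply i) hYm,
      ← Measure.map_map (measurable_pi_apply i) hXm, hm]
  refine ⟨h.prob, h.pos, hY, ?_, ?_⟩
  · rw [iIndepFun_iff_map_fun_eq_pi_map (fun i => (hY i).aemeasurable), hm,
      (iIndepFun_iff_map_fun_eq_pi_map (fun i => (h.meas i).aemeasurable)).1 h.indep]
    congr 1
    funext i
    rw [hmarg i]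
  · intro i k
    rw [← h.law i k]
    have e1 : μ.real {ω | Y i ω = k} = (Measure.map (Y i) μ).real {k} := by
      rw [map_measureReal_apply (hY i) (measurableSet_singleton k)]; rfl
    have e2 : μ.real {ω | X i ω = k} = (Measure.map (X i) μ).real {k} := by
      rw [map_measureReal_apply (h.meas i) (measurableSet_singleton k)]; rfl
    rw [e1, e2, hmarg i]

/-- The local involution. -/
def phi (v : Fin 3 → ℕ) : Fin 3 → ℕ :=
  ![v 2 + (v 0 - v 1), v 2 + (v 1 - v 0), min (v 0) (v 1)]

theorem phi_phi (v : Fin 3 → ℕ) : phi (phi v) = v := by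
  funext i
  fin_cases i <;> simp [phi] <;> omega

/-- Joint probability mass function. -/
theorem GeoFam.pmf {Ω ι : Type} [Fintype ι] [MeasurableSpace Ω] {μ : Measure Ω} {p : ι → ℝ}
    {X : ι → Ω → ℕ} (h : GeoFam μ p X) (v : ι → ℕ) :
    (Measure.map (fun ω i => X i ω) μ).real {v} = ∏ i, ((1 - p i) * (p i) ^ (v i)) := by
  have := h.prob
  have hXm : Measurable (fun ω i => X i ω) := measurable_pi_lambda _ h.meas
  rw [(iIndepFun_iff_map_fun_eq_pi_map (fun i => (h.meas i).aemeasurable)).1 h.indep]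
  have : ∀ i, IsProbabilityMeasure (Measure.map (X i) μ) := fun i =>
    Measure.isProbabilityMeasure_map (h.meas i).aemeasurable
  rw [measureReal_def, Measure.pi_singleton, ENNReal.toReal_prod]
  refine Finset.prod_congr rfl fun i _ => ?_
  rw [← measureReal_def, ← h.law i (v i), map_measureReal_apply (h.meas i)
    (measurableSet_singleton _)]
  rfl

/-- Three variables. -/
theorem three {Ω : Type} [MeasurableSpace Ω] (μ : Measure Ω) (p : Fin 3 → ℝ)
    (hp : p 2 = p 0 * p 1) (X : Fin 3 → Ω → ℕ) (h : GeoFam μ p X) :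
    GeoFam μ p (fun i ω => phi (fun l => X l ω) i) := by
  have := h.prob
  have hXm : Measurable (fun ω i => X i ω) := measurable_pi_lambda _ h.meas
  have hphi : Measurable phi := measurable_of_countable _
  have hY : ∀ i, Measurable (fun ω => phi (fun l => X l ω) i) := fun i =>
    (measurable_pi_apply i).comp (hphi.comp hXm)
  refine GeoFam.of_map h hY ?_
  have e : (fun (ω : Ω) (i : Fin 3) => phi (fun l => X l ω) i)
      = phi ∘ (fun ω i => X i ω) := rfl
  rw [e, ← Measure.map_map hphi hXm]
  have h1 : IsProbabilityMeasure (Measure.map (fun ω i => X i ω) μ) :=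
    Measure.isProbabilityMeasure_map hXm.aemeasurable
  have h2 : IsProbabilityMeasure (Measure.map phi (Measure.map (fun ω i => X i ω) μ)) :=
    Measure.isProbabilityMeasure_map hphi.aemeasurable
  refine Measure.ext_of_singleton fun v => ?_
  have h3 : phi ⁻¹' {v} = {phi v} := by
    ext w
    simp only [Set.mem_preimage, Set.mem_singleton_iff]
    constructor
    · intro hw; rw [← hw, phi_phi]
    · intro hw; rw [hw, phi_phi]
  have h4 : (Measure.map phi (Measure.map (fun ω i => X i ω) μ)).real {v}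
      = (Measure.map (fun ω i => X i ω) μ).real {v} := by
    rw [map_measureReal_apply hphi (measurableSet_singleton v), h3, GeoFam.pmf h, GeoFam.pmf h]
    simp only [Fin.prod_univ_three, phi, hp, mul_pow]
    have c0 : (![v 2 + (v 0 - v 1), v 2 + (v 1 - v 0), min (v 0) (v 1)] : Fin 3 → ℕ) 0
      = v 2 + (v 0 - v 1) := rfl
    have c1 : (![v 2 + (v 0 - v 1), v 2 + (v 1 - v 0), min (v 0) (v 1)] : Fin 3 → ℕ) 1
      = v 2 + (v 1 - v 0) := rfl
    have c2 : (![v 2 + (v 0 - v 1), v 2 + (v 1 - v 0), min (v 0) (v 1)] : Fin 3 → ℕ) 2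
      = min (v 0) (v 1) := rfl
    rw [c0, c1, c2]
    have d0 : (p 0) ^ (v 2 + (v 0 - v 1)) * (p 0) ^ (min (v 0) (v 1)) = (p 0) ^ (v 0) * (p 0) ^ (v 2) := by
      rw [← pow_add, ← pow_add]; congr 1; omega
    have d1 : (p 1) ^ (v 2 + (v 1 - v 0)) * (p 1) ^ (min (v 0) (v 1)) = (p 1) ^ (v 1) * (p 1) ^ (v 2) := by
      rw [← pow_add, ← pow_add]; congr 1; omega
    calc _ = (1 - p 0) * (1 - p 1) * (1 - p 0 * p 1) *
          ((p 0) ^ (v 2 + (v 0 - v 1)) * (p 0) ^ (min (v 0) (v 1))) *
          ((p 1) ^ (v 2 + (v 1 - v 0)) * (p 1) ^ (min (v 0) (v 1))) := by ring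
      _ = _ := by rw [d0, d1]; ring
  have := (measureReal_eq_measureReal_iff (measure_ne_top _ _) (measure_ne_top _ _)).1 h4
  exact this

/-- The local move, in place. -/
theorem core (hB : PBlock) {Ω ι : Type} [MeasurableSpace Ω] [Countable ι] [DecidableEq ι]
    (μ : Measure Ω) (p : ι → ℝ) (Y : ι → Ω → ℕ) (i j k : ι) (hij : i ≠ j) (hik : i ≠ k)
    (hjk : j ≠ k) (hp : p k = p i * p j) (h : GeoFam μ p Y) :
    GeoFam μ p (fun x ω => if x = i then Y k ω + (Y i ω - Y j ω) else
      if x = j then Y k ω + (Y j ω - Y i ω) else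
      if x = k then min (Y i ω) (Y j ω) else Y x ω) := by
  classical
  let κ := {x : ι // x ≠ i ∧ x ≠ j ∧ x ≠ k}
  let g : Fin 3 ⊕ κ → ι := Sum.elim ![i, j, k] Subtype.val
  have hg : Function.Injective g := by
    rintro (x | x) (y | y) hxy
    · congr 1
      have hinj : Function.Injective (![i, j, k] : Fin 3 → ι) := by
        intro a b hab
        fin_cases a <;> fin_cases b
        · rfl
        · exact absurd hab hij
        · exact absurd hab hik
        · exact absurd hab.symm hij
        · rfl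
        · exact absurd hab hjk
        · exact absurd hab.symm hik
        · exact absurd hab.symm hjk
        · rfl
      exact hinj hxy
    · exfalso
      have := y.2
      fin_cases x
      · exact this.1 hxy.symm
      · exact this.2.1 hxy.symm
      · exact this.2.2 hxy.symm
    · exfalso
      have := x.2
      fin_cases y
      · exact this.1 hxy
      · exact this.2.1 hxy
      · exact this.2.2 hxy
    · congr 1
      exact Subtype.ext hxy
  have h1 := GeoFam.precomp h g hg
  have h2 : GeoFam μ (Sum.elim (fun l : Fin 3 => p (![i, j, k] l)) (fun x : κ => p x.1))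
      (Sum.elim (fun l : Fin 3 => Y (![i, j, k] l)) (fun x : κ => Y x.1)) := by
    refine GeoFam.congr h1 ?_ ?_
    · rintro (x | x) <;> rfl
    · rintro (x | x) ω <;> rfl
  have h3 : GeoFam μ (fun l : Fin 3 => p (![i, j, k] l)) (fun l : Fin 3 => Y (![i, j, k] l)) :=
    GeoFam.precomp h2 Sum.inl Sum.inl_injective
  have h4 := three μ (fun l : Fin 3 => p (![i, j, k] l)) hp _ h3
  have h5 := hB μ (fun l : Fin 3 => p (![i, j, k] l)) (fun l : Fin 3 => p (![i, j, k] l))
    (fun x : κ => p x.1) (fun l : Fin 3 => Y (![i, j, k] l)) (fun x : κ => Y x.1) phi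
    (measurable_of_countable _) h2 h4
  let g' : ι → Fin 3 ⊕ κ := fun x => if hi : x = i then Sum.inl 0 else
    if hj : x = j then Sum.inl 1 else if hk : x = k then Sum.inl 2 else Sum.inr ⟨x, hi, hj, hk⟩
  have hgg : ∀ x, g (g' x) = x := by
    intro x
    by_cases hi : x = i
    · simp [g', hi, g]
    · by_cases hj : x = j
      · have : g' x = Sum.inl 1 := by simp [g', hj, hij.symm]
        rw [this, hj]; rfl
      · by_cases hk : x = k
        · have : g' x = Sum.inl 2 := by simp [g', hk, hik.symm, hjk.symm]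
          rw [this, hk]; rfl
        · have : g' x = Sum.inr ⟨x, hi, hj, hk⟩ := by simp [g', hi, hj, hk]
          rw [this]; rfl
  have hg' : Function.Injective g' := Function.LeftInverse.injective hgg
  refine GeoFam.congr (GeoFam.precomp h5 g' hg') ?_ ?_
  · intro x
    by_cases hi : x = i
    · have : g' x = Sum.inl 0 := by simp [g', hi]
      rw [this, hi]; rfl
    · by_cases hj : x = j
      · have : g' x = Sum.inl 1 := by simp [g', hj, hij.symm]
        rw [this, hj]; rfl
      · by_cases hk : x = k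
        · have : g' x = Sum.inl 2 := by simp [g', hk, hik.symm, hjk.symm]
          rw [this, hk]; rfl
        · have : g' x = Sum.inr ⟨x, hi, hj, hk⟩ := by simp [g', hi, hj, hk]
          rw [this]; rfl
  · intro x ω
    by_cases hi : x = i
    · have : g' x = Sum.inl 0 := by simp [g', hi]
      rw [this, hi]
      simp only [if_true]
      rfl
    · by_cases hj : x = j
      · have : g' x = Sum.inl 1 := by simp [g', hj, hij.symm]
        rw [this, hj]
        simp only [hij.symm, if_true, if_false]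
        rfl
      · by_cases hk : x = k
        · have : g' x = Sum.inl 2 := by simp [g', hk, hik.symm, hjk.symm]
          rw [this, hk]
          simp only [hik.symm, hjk.symm, if_true, if_false]
          rfl
        · have : g' x = Sum.inr ⟨x, hi, hj, hk⟩ := by simp [g', hi, hj, hk]
          rw [this]
          simp only [hi, hj, hk, if_false]
          rfl

/-- Horizontal part of the state. -/
def Hst {Ω : Type} (I J : ℕ → Ω → ℕ) (W : ℕ → ℕ → Ω → ℕ) (m j i i' : ℕ) (ω : Ω) : ℕ :=
  if i' < i then Ninc I J W (j + 1) i' ω else if i' < m then Ninc I J W j i' ω else I i' ω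

/-- Vertical part of the state. -/
def Vst {Ω : Type} (I J : ℕ → Ω → ℕ) (W : ℕ → ℕ → Ω → ℕ) (m j i j' : ℕ) (ω : Ω) : ℕ :=
  if j' < j then Einc I J W m j' ω else if j' = j then Einc I J W i j ω else J j' ω

theorem G_mono (I J : ℕ → ℕ) (W : ℕ → ℕ → ℕ) (m n : ℕ) :
    G I J W m n ≤ G I J W (m + 1) n ∧ G I J W m n ≤ G I J W m (n + 1) := by
  constructor
  · cases n with
    | zero => cases m <;> simp [G]
    | succ n => rw [show G I J W (m + 1) (n + 1)
        = max (G I J W m (n + 1)) (G I J W (m + 1) n) + W m n by rw [G]]; omega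
  · cases m with
    | zero => cases n <;> simp [G]
    | succ m => rw [show G I J W (m + 1) (n + 1)
        = max (G I J W m (n + 1)) (G I J W (m + 1) n) + W m n by rw [G]]; omega

theorem Ninc_zero {Ω : Type} (I J : ℕ → Ω → ℕ) (W : ℕ → ℕ → Ω → ℕ) (i : ℕ) (ω : Ω) :
    Ninc I J W 0 i ω = I i ω := by
  have : Gr I J W (i + 1) 0 ω = Gr I J W i 0 ω + I i ω := by rw [Gr, G]; rfl
  rw [Ninc, this]; omega

theorem Einc_zero {Ω : Type} (I J : ℕ → Ω → ℕ) (W : ℕ → ℕ → Ω → ℕ) (j : ℕ) (ω : Ω) :
    Einc I J W 0 j ω = J j ω := by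
  have : Gr I J W 0 (j + 1) ω = Gr I J W 0 j ω + J j ω := by rw [Gr, G]; rfl
  rw [Einc, this]; omega

theorem cell {Ω : Type} (I J : ℕ → Ω → ℕ) (W : ℕ → ℕ → Ω → ℕ) (i j : ℕ) (ω : Ω) :
    Ninc I J W (j + 1) i ω = W i j ω + (Ninc I J W j i ω - Einc I J W i j ω) ∧
    Einc I J W (i + 1) j ω = W i j ω + (Einc I J W i j ω - Ninc I J W j i ω) := by
  have h : Gr I J W (i + 1) (j + 1) ω
      = max (Gr I J W i (j + 1) ω) (Gr I J W (i + 1) j ω) + W i j ω := by rw [Gr, G]; rfl
  have h1 : Gr I J W i j ω ≤ Gr I J W (i + 1) j ω := (G_mono _ _ _ _ _).1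
  have h2 : Gr I J W i j ω ≤ Gr I J W i (j + 1) ω := (G_mono _ _ _ _ _).2
  simp only [Ninc, Einc, h]
  omega

theorem state (hB : PBlock) {Ω κ : Type} [MeasurableSpace Ω] [Countable κ] (μ : Measure Ω)
    (q a : ℝ) (I J : ℕ → Ω → ℕ) (W : ℕ → ℕ → Ω → ℕ) (c : κ → ℝ) (X : κ → Ω → ℕ) (ha : 0 < a)
    (h : Sys μ q a I J W c X) (m : ℕ) : ∀ j i : ℕ, i ≤ m →
    ∃ Z : ℕ → ℕ → Ω → ℕ, GeoFam μ (par q a (q / a) c)
      (fam (Hst I J W m j i) (Vst I J W m j i) Z X) ∧
      ∀ i' j', (j < j' ∨ (j' = j ∧ i ≤ i')) → Z i' j' = W i' j' := by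
  classical
  -- one step inside the row
  have hstep : ∀ j i : ℕ, i < m →
      (∃ Z : ℕ → ℕ → Ω → ℕ, GeoFam μ (par q a (q / a) c)
        (fam (Hst I J W m j i) (Vst I J W m j i) Z X) ∧
        ∀ i' j', (j < j' ∨ (j' = j ∧ i ≤ i')) → Z i' j' = W i' j') →
      (∃ Z : ℕ → ℕ → Ω → ℕ, GeoFam μ (par q a (q / a) c)
        (fam (Hst I J W m j (i + 1)) (Vst I J W m j (i + 1)) Z X) ∧
        ∀ i' j', (j < j' ∨ (j' = j ∧ i + 1 ≤ i')) → Z i' j' = W i' j') := by
    rintro j i hi ⟨Z, hZ, hZW⟩
    have hcore := core hB μ (par q a (q / a) c)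
      (fam (Hst I J W m j i) (Vst I J W m j i) Z X) (Sum.inl i) (Sum.inr (Sum.inl j))
      (Sum.inr (Sum.inr (Sum.inl (i, j)))) (by simp) (by simp) (by simp)
      (by simp only [par]; field_simp) hZ
    have hH : ∀ ω, Hst I J W m j i i ω = Ninc I J W j i ω := by
      intro ω; simp [Hst, hi]
    have hV : ∀ ω, Vst I J W m j i j ω = Einc I J W i j ω := by
      intro ω; simp [Vst]
    have hW : Z i j = W i j := hZW i j (Or.inr ⟨rfl, le_rfl⟩)
    refine ⟨fun i' j' ω => if (i', j') = (i, j) then min (Ninc I J W j i ω) (Einc I J W i j ω)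
      else Z i' j' ω, ?_, ?_⟩
    · refine GeoFam.congr hcore (fun _ => rfl) ?_
      rintro (i' | j' | ⟨i', j'⟩ | k) ω
      · by_cases hi' : i' = i
        · subst hi'
          simp only [if_true, fam]
          rw [hW, hH, hV]
          simp only [Hst, Nat.lt_succ_self, if_true]
          exact (cell I J W i' j ω).1.symm
        · have n1 : ¬ ((Sum.inl i' : ℕ ⊕ ℕ ⊕ (ℕ × ℕ) ⊕ κ) = Sum.inl i) := by
            simpa using hi'
          simp only [n1, if_false, fam, reduceCtorEq]
          simp only [Hst]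
          by_cases h1 : i' < i
          · have h2 : i' < i + 1 := by omega
            simp [h1, h2]
          · have h2 : ¬ i' < i + 1 := by omega
            simp [h1, h2]
      · by_cases hj' : j' = j
        · subst hj'
          simp only [if_true, fam, reduceCtorEq, if_false]
          rw [hW, hH, hV]
          simp only [Vst, lt_irrefl, if_true, if_false]
          exact (cell I J W i j' ω).2.symm
        · have n1 : ¬ ((Sum.inr (Sum.inl j') : ℕ ⊕ ℕ ⊕ (ℕ × ℕ) ⊕ κ) = Sum.inr (Sum.inl j)) := by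
            simpa using hj'
          have n2 : ¬ ((Sum.inr (Sum.inl j') : ℕ ⊕ ℕ ⊕ (ℕ × ℕ) ⊕ κ)
            = Sum.inr (Sum.inr (Sum.inl (i, j)))) := by simp
          simp only [n1, n2, if_false, fam, reduceCtorEq]
          simp only [Vst, hj', if_false]
      · by_cases hij : (i', j') = (i, j)
        · obtain ⟨rfl, rfl⟩ := Prod.mk.inj hij
          have n2 : ¬ ((Sum.inr (Sum.inr (Sum.inl (i', j'))) : ℕ ⊕ ℕ ⊕ (ℕ × ℕ) ⊕ κ)
              = Sum.inr (Sum.inl j')) := by simp
          simp only [n2, if_true, fam, reduceCtorEq, if_false]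
          rw [hH, hV]
        · have n1 : ¬ ((Sum.inr (Sum.inr (Sum.inl (i', j'))) : ℕ ⊕ ℕ ⊕ (ℕ × ℕ) ⊕ κ)
              = Sum.inr (Sum.inr (Sum.inl (i, j)))) := by
            simpa using hij
          have n2 : ¬ ((Sum.inr (Sum.inr (Sum.inl (i', j'))) : ℕ ⊕ ℕ ⊕ (ℕ × ℕ) ⊕ κ)
              = Sum.inr (Sum.inl j)) := by simp
          simp only [n1, n2, if_false, fam, reduceCtorEq, hij]
      · have n1 : ¬ ((Sum.inr (Sum.inr (Sum.inr k)) : ℕ ⊕ ℕ ⊕ (ℕ × ℕ) ⊕ κ)
              = Sum.inr (Sum.inr (Sum.inl (i, j)))) := by simp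
        have n2 : ¬ ((Sum.inr (Sum.inr (Sum.inr k)) : ℕ ⊕ ℕ ⊕ (ℕ × ℕ) ⊕ κ)
              = Sum.inr (Sum.inl j)) := by simp
        simp only [n1, n2, fam, reduceCtorEq, if_false]
    · intro i' j' hij
      have n1 : ¬ ((i', j') = (i, j)) := by
        intro he
        obtain ⟨rfl, rfl⟩ := Prod.mk.inj he
        omega
      funext ω
      simp only [n1, if_false]
      rw [hZW i' j' (by omega)]
  intro j
  induction j with
  | zero =>
    intro i
    induction i with
    | zero =>
      intro _
      refine ⟨W, ?_, fun _ _ _ => rfl⟩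
      refine GeoFam.congr h (fun _ => rfl) ?_
      rintro (i' | j' | ⟨i', j'⟩ | k) ω
      · simp only [fam, Hst, Nat.not_lt_zero, if_false]
        rw [Ninc_zero]; simp
      · simp only [fam, Vst, Nat.not_lt_zero, if_false]
        rw [Einc_zero]
        by_cases hj : j' = 0
        · simp [hj]
        · simp [hj]
      · rfl
      · rfl
    | succ i ih =>
      intro hi
      exact hstep 0 i (by omega) (ih (by omega))
  | succ j ihj =>
    intro i
    induction i with
    | zero =>
      intro _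
      obtain ⟨Z, hZ, hZW⟩ := ihj m le_rfl
      refine ⟨Z, ?_, ?_⟩
      · refine GeoFam.congr hZ (fun _ => rfl) ?_
        rintro (i' | j' | ⟨i', j'⟩ | k) ω
        · simp only [fam, Hst, Nat.not_lt_zero, if_false]
          by_cases h1 : i' < m
          · simp [h1]
          · simp [h1]
        · simp only [fam, Vst]
          by_cases h1 : j' < j
          · have h2 : j' < j + 1 := by omega
            simp [h1, h2]
          · by_cases h2 : j' = j
            · subst h2; simp
            · have h3 : ¬ j' < j + 1 := by omega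
              by_cases h4 : j' = j + 1
              · subst h4
                simp only [h1, h2, if_false, lt_irrefl, if_true]
                rw [Einc_zero]
              · simp [h1, h2, h3, h4]
        · rfl
        · rfl
      · intro i' j' hij
        exact hZW i' j' (by omega)
    | succ i ih =>
      intro hi
      exact hstep (j + 1) i (by omega) (ih (by omega))

/-- Burke property. -/
theorem pBurke (hB : PBlock) : PBurke := by
  intro Ω κ _ _ μ q a I J W c X hq hqa ha1 h m n
  obtain ⟨Z, hZ, -⟩ := state hB μ q a I J W c X (hq.trans hqa) h m n 0 (Nat.zero_le _)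
  let g : Fin m ⊕ Fin n ⊕ κ → ℕ ⊕ ℕ ⊕ (ℕ × ℕ) ⊕ κ :=
    Sum.elim (fun i => Sum.inl i) (Sum.elim (fun j => Sum.inr (Sum.inl j))
      (fun k => Sum.inr (Sum.inr (Sum.inr k))))
  have hg : Function.Injective g := by
    rintro (x | x | x) (y | y | y) hxy
    · have : (x : ℕ) = y := by simpa [g] using hxy
      rw [Fin.ext this]
    · simp [g] at hxy
    · simp [g] at hxy
    · simp [g] at hxy
    · have : (x : ℕ) = y := by simpa [g] using hxy
      rw [Fin.ext this]
    · simp [g] at hxy
    · simp [g] at hxy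
    · simp [g] at hxy
    · have : x = y := by simpa [g] using hxy
      rw [this]
  refine GeoFam.congr (GeoFam.precomp hZ g hg) ?_ ?_
  · rintro (x | x | x) <;> rfl
  · rintro (x | x | x) ω
    · simp [g, fam, Hst]
    · simp [g, fam, Vst]
    · rfl

end Pool.Agent.W634.LP
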